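import Pool.Agent.Helper41.LF.GoalsA

set_option autoImplicit false

namespace Pool.Agent.Helper88.LF

open Pool.Agent.Helper41.LF Finset

theorem mnr_cons (d j : ℕ) (a K x : ℝ) (β : Fin j → Fin (d + 1) → ℤ) (v : Fin (d + 1) → ℤ)
    (r : Fin (j + 1) → Fin (d + 1)) :
    mnr a K x (Fin.cons v β : Fin (j + 1) → Fin (d + 1) → ℤ) r =
      ∑ l : Fin (j + 1), (-1) ^ (l : ℕ) * hx d a K x v (r l) *
        mnr a K x β (fun k => r (l.succAbove k)) := by
  unfold mnr
  rw [Matrix.det_succ_row_zero]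
  refine Finset.sum_congr rfl fun l _ => ?_
  congr 1

theorem sum_fix (d j : ℕ) (g : (Fin j → Fin (d + 1)) → ℝ) (l : Fin (j + 1)) :
    ∑ r : Fin (j + 1) → Fin (d + 1), g (fun k => r (l.succAbove k)) = (d + 1) * ∑ r, g r := by
  rw [← (Fin.insertNthEquiv (fun _ : Fin (j + 1) => Fin (d + 1)) l).sum_comp]
  rw [Fintype.sum_prod_type]
  simp only [Fin.insertNthEquiv_apply, Fin.insertNth_apply_succAbove]
  simp

theorem thm_LAP : S_LAP := by
  intro d j a K x M β v h
  have hM : 0 ≤ M := (abs_nonneg _).trans (h 0)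
  unfold psi
  calc ∑ r : Fin (j + 1) → Fin (d + 1),
        |mnr a K x (Fin.cons v β : Fin (j + 1) → Fin (d + 1) → ℤ) r|
      ≤ ∑ r : Fin (j + 1) → Fin (d + 1), ∑ l : Fin (j + 1),
          M * |mnr a K x β (fun k => r (l.succAbove k))| := by
        refine Finset.sum_le_sum fun r _ => ?_
        rw [mnr_cons]
        refine (Finset.abs_sum_le_sum_abs _ _).trans (Finset.sum_le_sum fun l _ => ?_)
        rw [abs_mul, abs_mul, abs_pow, abs_neg, abs_one, one_pow, one_mul]
        exact mul_le_mul_of_nonneg_right (h _) (abs_nonneg _)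
    _ = ∑ l : Fin (j + 1), ∑ r : Fin (j + 1) → Fin (d + 1),
          M * |mnr a K x β (fun k => r (l.succAbove k))| := Finset.sum_comm
    _ = ∑ l : Fin (j + 1), M * ((d + 1) * ∑ r, |mnr a K x β r|) := by
        refine Finset.sum_congr rfl fun l _ => ?_
        rw [← Finset.mul_sum, sum_fix d j (fun r => |mnr a K x β r|) l]
    _ = (j + 1) * (d + 1) * M * ∑ r, |mnr a K x β r| := by
        rw [Finset.sum_const, Finset.card_univ, Fintype.card_fin, nsmul_eq_mul]
        push_cast
        ring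

end Pool.Agent.Helper88.LF
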