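import Pool.Agent.Helper73.LF.GoalsB

/-!
# LF-GRID: from fixed exponents to products
-/

set_option autoImplicit false

open Finset

namespace Pool.Agent.Helper88.LF

open Pool.Agent.Helper98.Lang Pool.Agent.Helper73.LF

theorem nd_le_one (x : ℝ) : nd x ≤ 1 := by
  have h := abs_sub_round x
  unfold nd
  linarith

theorem grid : Pool.Agent.Helper73.LF.GGrid := by
  intro m x hpos hfin δ hδ
  have hm1 : (0 : ℝ) < (m : ℝ) + 1 := by positivity
  obtain ⟨s, hs⟩ : ∃ s : ℝ, s = δ / ((m : ℝ) + 1) := ⟨_, rfl⟩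
  have hs0 : 0 < s := by rw [hs]; positivity
  have hms : (m : ℝ) * s ≤ δ := by
    rw [hs, ← mul_div_assoc, div_le_iff₀ hm1]
    nlinarith
  obtain ⟨K, hK⟩ : ∃ K : ℕ, K = ⌈(1 + δ) / s⌉₊ := ⟨_, rfl⟩
  have hsK : 1 + δ ≤ s * K := by
    have h1 : (1 + δ) / s ≤ (K : ℝ) := by rw [hK]; exact Nat.le_ceil _
    rw [div_le_iff₀ hs0] at h1
    linarith [mul_comm s (K : ℝ)]
  obtain ⟨B, hB⟩ : ∃ B : Set ℕ, B = {n : ℕ | 2 ≤ n ∧ ∏ i, nd (n * x i) < (n : ℝ) ^ (-(1 + δ))} :=
    ⟨_, rfl⟩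
  have hBfin : B.Finite := by
    have hU : (⋃ j ∈ {j : Fin m → Fin (K + 1) | 1 < ∑ i, s * ((j i : ℕ) : ℝ)},
        {n : ℕ | 1 ≤ n ∧ ∀ i, nd (n * x i) ≤ (n : ℝ) ^ (-(s * ((j i : ℕ) : ℝ)))}).Finite :=
      Set.Finite.biUnion (Set.toFinite _) fun j hj => hfin (fun i => s * ((j i : ℕ) : ℝ)) hj
    refine hU.subset ?_
    intro n hn
    rw [hB] at hn
    obtain ⟨hn2, hnp⟩ := hn
    have hn1 : 1 ≤ n := by omega
    have hn1' : (1 : ℝ) ≤ n := by exact_mod_cast hn1
    have hn2' : (2 : ℝ) ≤ n := by exact_mod_cast hn2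
    have hn0 : (0 : ℝ) < n := by linarith
    have hlog : 0 < Real.log n := Real.log_pos (by linarith)
    obtain ⟨b, hb⟩ : ∃ b : Fin m → ℝ, ∀ i, b i = -Real.log (nd (n * x i)) / Real.log n :=
      ⟨_, fun _ => rfl⟩
    have hb0 : ∀ i, 0 ≤ b i := by
      intro i
      rw [hb i]
      have h1 : Real.log (nd (n * x i)) ≤ 0 :=
        Real.log_nonpos (hpos n hn1 i).le (nd_le_one _)
      exact div_nonneg (by linarith) hlog.le
    have hbl : ∀ i, Real.log (nd (n * x i)) = -(b i) * Real.log n := by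
      intro i
      rw [hb i]
      field_simp
    have hbn : ∀ i, nd (n * x i) = (n : ℝ) ^ (-(b i)) := by
      intro i
      rw [Real.rpow_def_of_pos hn0, mul_comm (Real.log n) (-(b i)), ← hbl i,
        Real.exp_log (hpos n hn1 i)]
    have hsum : 1 + δ < ∑ i, b i := by
      have h1 : Real.log (∏ i, nd (n * x i)) < Real.log ((n : ℝ) ^ (-(1 + δ))) :=
        Real.log_lt_log (Finset.prod_pos fun i _ => hpos n hn1 i) hnp
      rw [Real.log_rpow hn0, Real.log_prod (fun i _ => (hpos n hn1 i).ne'),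
        Finset.sum_congr rfl (fun i _ => hbl i), ← Finset.sum_mul, Finset.sum_neg_distrib] at h1
      have h2 := lt_of_mul_lt_mul_right h1 hlog.le
      linarith
    obtain ⟨j, hj⟩ : ∃ j : Fin m → Fin (K + 1), ∀ i, (j i : ℕ) = min ⌊b i / s⌋₊ K :=
      ⟨fun i => ⟨min ⌊b i / s⌋₊ K, Nat.lt_succ_of_le (min_le_right _ _)⟩, fun _ => rfl⟩
    have hjb : ∀ i, s * ((j i : ℕ) : ℝ) ≤ b i := by
      intro i
      have h1 : ((j i : ℕ) : ℝ) ≤ (⌊b i / s⌋₊ : ℝ) := by
        rw [hj i]; exact_mod_cast min_le_left _ _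
      have h2 : (⌊b i / s⌋₊ : ℝ) ≤ b i / s := Nat.floor_le (div_nonneg (hb0 i) hs0.le)
      have h3 := h1.trans h2
      rw [le_div_iff₀ hs0] at h3
      linarith [mul_comm s ((j i : ℕ) : ℝ)]
    have hj0 : ∀ i, 0 ≤ s * ((j i : ℕ) : ℝ) := fun i => by positivity
    have hjs : 1 < ∑ i, s * ((j i : ℕ) : ℝ) := by
      by_cases hex : ∃ i, (j i : ℕ) = K
      · obtain ⟨i, hi⟩ := hex
        have h1 : s * ((j i : ℕ) : ℝ) ≤ ∑ i, s * ((j i : ℕ) : ℝ) :=
          Finset.single_le_sum (f := fun i => s * ((j i : ℕ) : ℝ)) (fun i _ => hj0 i)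
            (Finset.mem_univ i)
        rw [hi] at h1
        linarith
      · push Not at hex
        have h1 : ∀ i, b i - s ≤ s * ((j i : ℕ) : ℝ) := by
          intro i
          have h2 : (j i : ℕ) = ⌊b i / s⌋₊ := by
            have h3 := hex i
            rw [hj i] at h3 ⊢
            rcases le_total ⌊b i / s⌋₊ K with h4 | h4
            · exact min_eq_left h4
            · exact absurd (min_eq_right h4) h3
          have h3 : b i / s < (⌊b i / s⌋₊ : ℝ) + 1 := Nat.lt_floor_add_one _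
          rw [div_lt_iff₀ hs0] at h3
          rw [h2]
          nlinarith
        have h2 : ∑ i, (b i - s) ≤ ∑ i, s * ((j i : ℕ) : ℝ) := Finset.sum_le_sum fun i _ => h1 i
        rw [Finset.sum_sub_distrib, Finset.sum_const, Finset.card_univ, Fintype.card_fin,
          nsmul_eq_mul] at h2
        linarith
    refine Set.mem_biUnion (x := j) hjs ?_
    refine ⟨hn1, fun i => ?_⟩
    rw [hbn i]
    exact Real.rpow_le_rpow_of_exponent_le hn1' (by linarith [hjb i])
  have key : ∀ t : Finset ℕ, (∀ n ∈ t, 1 ≤ n) →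
      ∃ c : ℝ, 0 < c ∧ c ≤ 1 ∧ ∀ n ∈ t, c ≤ ∏ i, nd (n * x i) := by
    intro t
    induction t using Finset.induction_on with
    | empty => intro _; exact ⟨1, one_pos, le_refl _, by simp⟩
    | insert a t ha ih =>
      intro ht
      obtain ⟨c, hc, hc1, hcs⟩ := ih (fun n hn => ht n (Finset.mem_insert_of_mem hn))
      have ha1 : 0 < ∏ i, nd (a * x i) :=
        Finset.prod_pos fun i _ => hpos a (ht a (Finset.mem_insert_self _ _)) i
      refine ⟨min c (∏ i, nd (a * x i)), lt_min hc ha1, (min_le_left _ _).trans hc1, ?_⟩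
      intro n hn
      rcases Finset.mem_insert.1 hn with rfl | hn
      · exact min_le_right _ _
      · exact (min_le_left _ _).trans (hcs n hn)
  obtain ⟨c, hc, hc1, hcs⟩ := key (insert 1 hBfin.toFinset) (by
    intro n hn
    rcases Finset.mem_insert.1 hn with rfl | hn
    · exact le_refl _
    · have h := (hBfin.mem_toFinset).1 hn
      rw [hB] at h
      have h2 : 2 ≤ n := h.1
      omega)
  refine ⟨c, hc, fun n hn => ?_⟩
  have hn1 : (1 : ℝ) ≤ n := by exact_mod_cast hn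
  have hle : (n : ℝ) ^ (-(1 + δ)) ≤ 1 :=
    Real.rpow_le_one_of_one_le_of_nonpos hn1 (by linarith)
  have hp : 0 < (n : ℝ) ^ (-(1 + δ)) := Real.rpow_pos_of_pos (by linarith) _
  by_cases hS : n = 1 ∨ n ∈ B
  · have hmem : n ∈ insert 1 hBfin.toFinset := by
      rcases hS with rfl | hS
      · exact Finset.mem_insert_self _ _
      · exact Finset.mem_insert_of_mem ((hBfin.mem_toFinset).2 hS)
    calc c * (n : ℝ) ^ (-(1 + δ)) ≤ c * 1 := mul_le_mul_of_nonneg_left hle hc.le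
      _ = c := mul_one _
      _ ≤ _ := hcs n hmem
  · push Not at hS
    have h2 : 2 ≤ n := by
      have := hS.1
      omega
    have h3 : (n : ℝ) ^ (-(1 + δ)) ≤ ∏ i, nd (n * x i) := by
      by_contra h4
      apply hS.2
      rw [hB]
      exact ⟨h2, not_le.1 h4⟩
    calc c * (n : ℝ) ^ (-(1 + δ)) ≤ 1 * (n : ℝ) ^ (-(1 + δ)) :=
        mul_le_mul_of_nonneg_right hc1 hp.le
      _ ≤ _ := by rw [one_mul]; exact h3

end Pool.Agent.Helper88.LF
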